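import Pool.Agent.W2helper59.CW.Stm

set_option autoImplicit false

namespace Pool.Agent.W2helper78.CW

open Pool.Agent.W2helper59.CW MeasureTheory Set

theorem p_bint : P_BINT := by
  intro al de ga
  have hd : (0 : ℝ) < (de : ℝ) + 1 := by positivity
  set a : ℝ := (al : ℝ) / (de + 1) with ha
  set b : ℝ := (ga : ℝ) / (de + 1) with hb
  have ha0 : 0 ≤ a := by positivity
  have hb0 : 0 ≤ b := by positivity
  have h1 : (((∫ t in (0 : ℝ)..1, fd al de ga t : ℝ)) : ℂ) =
      Complex.betaIntegral (((1 + a : ℝ)) : ℂ) (((1 + b : ℝ)) : ℂ) := by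
    rw [Complex.betaIntegral, ← intervalIntegral.integral_ofReal]
    refine intervalIntegral.integral_congr fun t ht => ?_
    rw [uIcc_of_le (zero_le_one)] at ht
    have e1 : (((1 + a : ℝ)) : ℂ) - 1 = ((a : ℝ) : ℂ) := by push_cast; ring
    have e2 : (((1 + b : ℝ)) : ℂ) - 1 = ((b : ℝ) : ℂ) := by push_cast; ring
    have e3 : (1 : ℂ) - (t : ℂ) = (((1 - t : ℝ)) : ℂ) := by push_cast; ring
    simp only [e1, e2, e3, fd]
    rw [← Complex.ofReal_cpow ht.1, ← Complex.ofReal_cpow (by linarith [ht.2])]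
    push_cast
    rfl
  have h2 := Complex.Gamma_mul_Gamma_eq_betaIntegral
    (s := (((1 + a : ℝ)) : ℂ)) (t := (((1 + b : ℝ)) : ℂ))
    (by rw [Complex.ofReal_re]; linarith) (by rw [Complex.ofReal_re]; linarith)
  rw [← h1, Complex.Gamma_ofReal, Complex.Gamma_ofReal, ← Complex.ofReal_add,
    Complex.Gamma_ofReal] at h2
  have h3 : Real.Gamma (1 + a) * Real.Gamma (1 + b) =
      Real.Gamma (1 + a + (1 + b)) * ∫ t in (0 : ℝ)..1, fd al de ga t := by
    exact_mod_cast h2
  have e4 : 1 + a + (1 + b) = 2 + ((al : ℝ) + ga) / (de + 1) := by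
    rw [ha, hb]; ring
  have h4 : Real.Gamma (2 + ((al : ℝ) + ga) / (de + 1)) ≠ 0 := by
    apply (Real.Gamma_pos_of_pos (by positivity)).ne'
  rw [e4] at h3
  rw [Bt, h3]
  field_simp

end Pool.Agent.W2helper78.CW
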